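import Pool.Agent.Helper88.QR.StmtsB

/-!
# An isomorphism of the codes extends to an isomorphism of the maps (row B14 of project QR)
-/

namespace QRB28

open QR QRB

noncomputable section

variable {D D' : Type}

lemma des_opp {m : RMap D} {lam : D → ℕ} (h : PLM m lam) (d : D) (hd : ¬ Des m lam d) :
    Des m lam (m.opp d) := by
  unfold Des at *
  rw [m.opp_opp]
  rcases h.opp d with h1 | h1
  · exact h1.symm
  · exact absurd h1 hd

lemma not_des_opp {m : RMap D} {lam : D → ℕ} (d : D) (hd : Des m lam d) :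
    ¬ Des m lam (m.opp d) := by
  unfold Des at *
  rw [m.opp_opp]
  omega

open Classical in
/-- extension of a map of the down darts to all darts -/
def Ex {m : RMap D} {lam : D → ℕ} {m' : RMap D'} {lam' : D' → ℕ} (h : PLM m lam)
    (ψ : Dn m lam → Dn m' lam') (d : D) : D' :=
  if hd : Des m lam d then (ψ ⟨d, hd⟩).1 else m'.opp (ψ ⟨m.opp d, des_opp h d hd⟩).1

lemma ex_c {m : RMap D} {lam : D → ℕ} {m' : RMap D'} {lam' : D' → ℕ} (h : PLM m lam)
    (ψ : Dn m lam → Dn m' lam') (c : Dn m lam) : Ex h ψ c.1 = (ψ c).1 := by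
  unfold Ex
  rw [dif_pos c.2]

lemma ex_o {m : RMap D} {lam : D → ℕ} {m' : RMap D'} {lam' : D' → ℕ} (h : PLM m lam)
    (ψ : Dn m lam → Dn m' lam') (c : Dn m lam) : Ex h ψ (m.opp c.1) = m'.opp (ψ c).1 := by
  unfold Ex
  rw [dif_neg (not_des_opp c.1 c.2)]
  have : (⟨m.opp (m.opp c.1), des_opp h (m.opp c.1) (not_des_opp c.1 c.2)⟩ : Dn m lam) = c := by
    apply Subtype.ext
    exact m.opp_opp c.1
  rw [this]

lemma cases_d {m : RMap D} {lam : D → ℕ} (h : PLM m lam) (d : D) :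
    (∃ c : Dn m lam, d = c.1) ∨ ∃ c : Dn m lam, d = m.opp c.1 := by
  by_cases hd : Des m lam d
  · exact Or.inl ⟨⟨d, hd⟩, rfl⟩
  · exact Or.inr ⟨⟨m.opp d, des_opp h d hd⟩, (m.opp_opp d).symm⟩

lemma ex_ex {m : RMap D} {lam : D → ℕ} {m' : RMap D'} {lam' : D' → ℕ} (h : PLM m lam)
    (h' : PLM m' lam') (ψ : Dn m lam → Dn m' lam') (ψ' : Dn m' lam' → Dn m lam)
    (hψ : ∀ c, ψ' (ψ c) = c) (d : D) : Ex h' ψ' (Ex h ψ d) = d := by
  rcases cases_d h d with ⟨c, rfl⟩ | ⟨c, rfl⟩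
  · rw [ex_c, ex_c, hψ]
  · rw [ex_o, ex_o, hψ]

lemma pow_tr {C C' : Type} (τ : Equiv.Perm C) (τ' : Equiv.Perm C') (Ψ : C → C')
    (h : ∀ c, Ψ (τ c) = τ' (Ψ c)) (k : ℕ) (c : C) : Ψ ((τ ^ k) c) = (τ' ^ k) (Ψ c) := by
  induction k with
  | zero => simp
  | succ k ih => rw [pow_succ', pow_succ', Equiv.Perm.mul_apply, Equiv.Perm.mul_apply, h, ih]

lemma lo_tr {C C' : Type} (τ : Equiv.Perm C) (τ' : Equiv.Perm C') (lab : C → ℕ) (lab' : C' → ℕ)
    (Ψ : C → C') (h : ∀ c, Ψ (τ c) = τ' (Ψ c)) (hl : ∀ c, lab' (Ψ c) = lab c) (x y : C)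
    (hxy : Lo τ lab x y) : Lo τ' lab' (Ψ x) (Ψ y) := by
  obtain ⟨k, hk, h1, _, h3⟩ := hxy
  refine ⟨k, hk, ?_, le_refl _, ?_⟩
  · rw [← pow_tr τ τ' Ψ h, h1]
  · intro j hj1 hj2
    rw [← pow_tr τ τ' Ψ h]
    simp only [hl]
    exact h3 j hj1 hj2

/-- the first element after `c` with label at most `r` exists if some element satisfies it -/
lemma first {C : Type} (τ : Equiv.Perm C) (p : C → Prop) (c : C) (k : ℕ) (hk : 0 < k)
    (hp : p ((τ ^ k) c)) : ∃ j, 0 < j ∧ j ≤ k ∧ p ((τ ^ j) c) ∧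
      ∀ i, 0 < i → i < j → ¬ p ((τ ^ i) c) := by
  classical
  have hex : ∃ j, 0 < j ∧ p ((τ ^ j) c) := ⟨k, hk, hp⟩
  refine ⟨Nat.find hex, (Nat.find_spec hex).1, Nat.find_le ⟨hk, hp⟩, (Nat.find_spec hex).2, ?_⟩
  intro i hi hij hpi
  exact Nat.find_min hex hij ⟨hi, hpi⟩

lemma ret {C : Type} [Finite C] (τ : Equiv.Perm C) (c : C) : ∃ k, 0 < k ∧ (τ ^ k) c = c := by
  classical
  have := Fintype.ofFinite C
  exact ⟨orderOf τ, orderOf_pos τ, by rw [pow_orderOf_eq_one]; rfl⟩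

lemma pow_step {C : Type} (τ : Equiv.Perm C) (c : C) (k : ℕ) (hk : 0 < k) :
    τ ((τ ^ (k - 1)) c) = (τ ^ k) c := by
  obtain ⟨j, rfl⟩ : ∃ j, k = j + 1 := ⟨k - 1, by omega⟩
  rw [Nat.add_sub_cancel, pow_succ', Equiv.Perm.mul_apply]

lemma pow_last {C : Type} (τ : Equiv.Perm C) (x : C) (k j : ℕ) (hj : j ≤ k) :
    (τ ^ j) ((τ⁻¹ ^ k) x) = (τ⁻¹ ^ (k - j)) x := by
  have : k = j + (k - j) := by omega
  conv_lhs => rw [this, pow_add, ← Equiv.Perm.mul_apply]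
  rw [← mul_assoc, inv_pow, mul_inv_cancel, one_mul]

lemma face_tr [Finite D] [Finite D'] {m : RMap D} {lam : D → ℕ} {m' : RMap D'} {lam' : D' → ℕ}
    {τ α : Equiv.Perm (Dn m lam)} {τ' α' : Equiv.Perm (Dn m' lam')} (h : PLM m lam)
    (hc : MCode m lam τ α) (hc' : MCode m' lam' τ' α')
    (Ψ : Dn m lam → Dn m' lam') (ht : ∀ c, Ψ (τ c) = τ' (Ψ c)) (ha : ∀ c, Ψ (α c) = α' (Ψ c))
    (hl : ∀ c, lam' (Ψ c).1 = lam c.1) (d : D) :
    Ex h Ψ (m.face d) = m'.face (Ex h Ψ d) := by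
  have hlo : ∀ x y, Lo τ (lb m lam) x y → Lo τ' (lb m' lam') (Ψ x) (Ψ y) :=
    lo_tr τ τ' (lb m lam) (lb m' lam') Ψ ht hl
  rcases cases_d h d with ⟨c, rfl⟩ | ⟨x, rfl⟩
  · rw [ex_c]
    by_cases h1 : lam (τ c).1 + 1 = lam c.1
    · rw [hc.fa c h1, hc'.fa (Ψ c) (by rw [← ht, hl, hl]; exact h1), ex_c, ha]
    · have h2 : lam c.1 ≤ lam (τ c).1 := by
        have := hc.down c
        omega
      obtain ⟨K, hK, hK2⟩ := ret τ c
      obtain ⟨k, hk, _, hk1, hk2⟩ := first τ (fun z => lam z.1 ≤ lam c.1) c K hK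
        (by show lam ((τ ^ K) c).1 ≤ _; rw [hK2])
      have h3 : lam ((τ ^ k) c).1 = lam c.1 := by
        refine le_antisymm hk1 ?_
        rcases Nat.lt_or_ge 1 k with h4 | h4
        · have h5 := hk2 (k - 1) (by omega) (by omega)
          have h6 := hc.down ((τ ^ (k - 1)) c)
          rw [pow_step τ c k hk] at h6
          have h5' : ¬ lam ((τ ^ (k - 1)) c).1 ≤ lam c.1 := h5
          omega
        · have : k = 1 := by omega
          subst this
          simpa using h2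
      have h7 : Lo τ (lb m lam) c ((τ ^ k) c) := by
        refine ⟨k, hk, rfl, le_refl _, ?_⟩
        intro j hj1 hj2
        have := hk2 j hj1 hj2
        simp only [lb] at this ⊢
        omega
      rw [hc.fb c _ h2 h7 h3, hc'.fb (Ψ c) (Ψ ((τ ^ k) c)) (by rw [← ht, hl, hl]; exact h2)
        (hlo _ _ h7) (by rw [hl, hl]; exact h3), ex_o]
  · rw [ex_o]
    obtain ⟨K, hK, hK2⟩ := ret τ⁻¹ x
    obtain ⟨k, hk, _, hk1, hk2⟩ := first τ⁻¹ (fun z => lam z.1 ≤ lam x.1) x K hK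
      (by show lam ((τ⁻¹ ^ K) x).1 ≤ _; rw [hK2])
    set c := (τ⁻¹ ^ k) x with hcdef
    have hck : ∀ j ≤ k, (τ ^ j) c = (τ⁻¹ ^ (k - j)) x := fun j hj => pow_last τ x k j hj
    have hkx : (τ ^ k) c = x := by
      rw [hck k (le_refl _)]; simp
    have h7 : Lo τ (lb m lam) c x := by
      refine ⟨k, hk, hkx, le_refl _, ?_⟩
      intro j hj1 hj2
      have := hk2 (k - j) (by omega) (by omega)
      rw [← hck j (by omega)] at this
      exact this
    have hk1' : lam c.1 ≤ lam x.1 := hk1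
    rcases Nat.lt_or_ge 1 k with h4 | h4
    · -- k ≥ 2
      have h5 : ¬ lam ((τ ^ (k - 1)) c).1 ≤ lam x.1 := by
        have := hk2 1 (by omega) h4
        rw [hck (k - 1) (by omega), show k - (k - 1) = 1 by omega]
        exact this
      have h6 : lam ((τ ^ (k - 1)) c).1 ≤ lam x.1 + 1 := by
        have h6 := hc.down ((τ ^ (k - 1)) c)
        rw [pow_step τ c k hk, hkx] at h6
        exact h6
      obtain ⟨j, hj, hjk, hj1, hj2⟩ := first τ (fun z => lam z.1 ≤ lam x.1 + 1) c (k - 1)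
        (by omega) h6
      have h8 : ¬ lam ((τ ^ j) c).1 ≤ lam x.1 := by
        have := hk2 (k - j) (by omega) (by omega)
        rw [hck j (by omega)]
        exact this
      have hj1' : lam ((τ ^ j) c).1 ≤ lam x.1 + 1 := hj1
      have h9 : lam ((τ ^ j) c).1 = lam x.1 + 1 := by omega
      have h10 : Lo τ (lb m lam) c ((τ ^ j) c) := by
        refine ⟨j, hj, rfl, le_refl _, ?_⟩
        intro i hi1 hi2
        have := hj2 i hi1 hi2
        simp only [lb] at this ⊢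
        omega
      rw [hc.fc c x _ hk1' h7 h10 h9, hc'.fc (Ψ c) (Ψ x) (Ψ ((τ ^ j) c))
        (by rw [hl, hl]; exact hk1') (hlo _ _ h7) (hlo _ _ h10) (by rw [hl, hl]; exact h9), ex_o]
    · have hk' : k = 1 := by omega
      have hx : τ c = x := by
        rw [← hkx, hk', pow_one]
      have h11 : lam c.1 ≤ lam (τ c).1 := by rw [hx]; exact hk1'
      have h12 := hc.fd c h11
      have h13 := hc'.fd (Ψ c) (by rw [← ht, hl, hl]; exact h11)
      rw [hx] at h12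
      rw [← ht, hx, ← ha] at h13
      rw [h12, h13, ex_c]

theorem st_B14 : ST_B14 := by
  intro D D' _ _ m m' lam lam' τ α τ' α' h h' hc hc' Ψ ht ha hl
  let Φ : D ≃ D' :=
    { toFun := Ex h Ψ
      invFun := Ex h' Ψ.symm
      left_inv := ex_ex h h' Ψ Ψ.symm (fun c => Ψ.symm_apply_apply c)
      right_inv := ex_ex h' h Ψ.symm Ψ (fun c => Ψ.apply_symm_apply c) }
  have hΦ : ∀ d, Φ d = Ex h Ψ d := fun _ => rfl
  have hopp : ∀ d, Φ (m.opp d) = m'.opp (Φ d) := by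
    intro d
    rw [hΦ, hΦ]
    rcases cases_d h d with ⟨c, rfl⟩ | ⟨c, rfl⟩
    · rw [ex_o, ex_c]
    · rw [m.opp_opp, ex_o, ex_c, m'.opp_opp]
  refine ⟨Φ, ?_, hopp, ?_, ?_⟩
  · intro d
    have e1 : m.rot d = m.face (m.opp d) := by simp [RMap.face, m.opp_opp]
    have e2 : m'.rot (Φ d) = m'.face (m'.opp (Φ d)) := by simp [RMap.face, m'.opp_opp]
    rw [e1, e2, ← hopp, hΦ, hΦ]
    exact face_tr h hc hc' Ψ ht ha hl (m.opp d)
  · intro c
    exact ex_c h Ψ c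
  · intro d
    rw [hΦ]
    rcases cases_d h d with ⟨c, rfl⟩ | ⟨c, rfl⟩
    · rw [ex_c, hl]
    · rw [ex_o]
      have h1 : lam' (m'.opp (Ψ c).1) + 1 = lam' (Ψ c).1 := (Ψ c).2
      have h2 : lam (m.opp c.1) + 1 = lam c.1 := c.2
      have h3 := hl c
      omega

end

end QRB28
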