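import Pool.Agent.Helper98.QR.StmtsS

/-!
# The combined functional, average over `N` and `P` (row S06 of project QR)
-/

namespace QR28

open QR Filter Topology

noncomputable section

/-- functionals of rooted maps -/
abbrev Fn : Type 1 := (D : Type) → RMap D → D → ℝ

instance finRMap (n : ℕ) : Finite (RMap (Fin n)) := by
  refine Finite.of_injective (fun m : RMap (Fin n) => (m.rot, m.opp)) ?_
  intro m m' h
  simp only [Prod.mk.injEq] at h
  exact RMap.ext h.1 h.2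

lemma avG_eq (X : Fn) (N P : ℕ) :
    avG N P X = (∑ x ∈ (Set.toFinite (GQ N P)).toFinset, X _ x.1 x.2) /
      (Nat.card {x // x ∈ GQ N P} : ℝ) := by
  unfold avG
  rw [finsum_mem_eq_finite_toFinset_sum (fun x : RMap (Fin (4 * N + 2 * P)) ×
    Fin (4 * N + 2 * P) => X _ x.1 x.2) (Set.toFinite (GQ N P))]

lemma avG_sum {ι : Type} (s : Finset ι) (a : ι → ℝ) (X : ι → Fn) (N P : ℕ) :
    avG N P (fun D m o => ∑ i ∈ s, a i * X i D m o) = ∑ i ∈ s, a i * avG N P (X i) := by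
  rw [avG_eq]
  simp only [avG_eq (X _)]
  rw [Finset.sum_comm, Finset.sum_div]
  refine Finset.sum_congr rfl fun i _ => ?_
  rw [← Finset.mul_sum, mul_div_assoc]

lemma avG_add (X Y : Fn) (N P : ℕ) :
    avG N P (fun D m o => X D m o + Y D m o) = avG N P X + avG N P Y := by
  rw [avG_eq, avG_eq X, avG_eq Y, Finset.sum_add_distrib, add_div]

/-- eventual upper bound of the average over `N` -/
def U (K5 : ℝ) (X : Fn) (g : ℕ → ℝ) : Prop :=
  ∀ P, 1 ≤ P → ∀ ε > 0, ∀ᶠ M : ℕ in atTop,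
    1 / (M : ℝ) * ∑ N ∈ Finset.Ico M (2 * M), avG N P X ≤
      K5 * g P / (8 ^ P * Real.sqrt P) + ε

lemma U_sum {ι : Type} (K5 : ℝ) (s : Finset ι) (a : ι → ℝ) (X : ι → Fn) (g : ι → ℕ → ℝ)
    (ha : ∀ i ∈ s, 0 ≤ a i) (h : ∀ i ∈ s, U K5 (X i) (g i)) :
    U K5 (fun D m o => ∑ i ∈ s, a i * X i D m o) (fun P => ∑ i ∈ s, a i * g i P) := by
  intro P hP ε hε
  have hS : 0 ≤ ∑ i ∈ s, a i := Finset.sum_nonneg ha
  set S := ∑ i ∈ s, a i with hSdef
  have hε' : 0 < ε / (S + 1) := by positivity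
  have hall : ∀ᶠ M : ℕ in atTop, ∀ i ∈ s,
      1 / (M : ℝ) * ∑ N ∈ Finset.Ico M (2 * M), avG N P (X i) ≤
      K5 * g i P / (8 ^ P * Real.sqrt P) + ε / (S + 1) := by
    rw [Filter.eventually_all_finset]
    intro i hi
    exact h i hi P hP _ hε'
  filter_upwards [hall] with M hM
  have e1 : 1 / (M : ℝ) * ∑ N ∈ Finset.Ico M (2 * M),
      avG N P (fun D m o => ∑ i ∈ s, a i * X i D m o) =
      ∑ i ∈ s, a i * (1 / (M : ℝ) * ∑ N ∈ Finset.Ico M (2 * M), avG N P (X i)) := by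
    simp only [avG_sum]
    rw [Finset.sum_comm, Finset.mul_sum]
    refine Finset.sum_congr rfl fun i _ => ?_
    rw [← Finset.mul_sum]
    ring
  rw [e1]
  calc ∑ i ∈ s, a i * (1 / (M : ℝ) * ∑ N ∈ Finset.Ico M (2 * M), avG N P (X i))
      ≤ ∑ i ∈ s, a i * (K5 * g i P / (8 ^ P * Real.sqrt P) + ε / (S + 1)) :=
        Finset.sum_le_sum fun i hi => mul_le_mul_of_nonneg_left (hM i hi) (ha i hi)
    _ = K5 * (∑ i ∈ s, a i * g i P) / (8 ^ P * Real.sqrt P) + S * (ε / (S + 1)) := by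
        rw [hSdef, Finset.sum_mul, Finset.mul_sum, Finset.sum_div, ← Finset.sum_add_distrib]
        refine Finset.sum_congr rfl fun i _ => ?_
        ring
    _ ≤ K5 * (∑ i ∈ s, a i * g i P) / (8 ^ P * Real.sqrt P) + ε := by
        have : S * (ε / (S + 1)) ≤ ε := by
          rw [mul_div_assoc', div_le_iff₀ (by linarith)]
          nlinarith
        linarith

lemma U_add (K5 : ℝ) (X Y : Fn) (g g' : ℕ → ℝ) (h : U K5 X g) (h' : U K5 Y g') :
    U K5 (fun D m o => X D m o + Y D m o) (fun P => g P + g' P) := by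
  intro P hP ε hε
  filter_upwards [h P hP (ε / 2) (by linarith), h' P hP (ε / 2) (by linarith)] with M h1 h2
  simp only [avG_add]
  rw [Finset.sum_add_distrib, mul_add]
  have : K5 * (g P + g' P) / (8 ^ P * Real.sqrt P) =
    K5 * g P / (8 ^ P * Real.sqrt P) + K5 * g' P / (8 ^ P * Real.sqrt P) := by ring
  rw [this]
  linarith

/-! ## Tails -/

lemma TL_mono {a : PowerSeries ℝ} {c c' : ℝ} (h : TL a c) (hc : c ≤ c') : TL a c' := by
  refine ⟨h.1, fun ε hε => ?_⟩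
  filter_upwards [h.2 ε hε] with M hM
  refine hM.trans (mul_le_mul_of_nonneg_right (by linarith) (Real.rpow_nonneg (by positivity) _))

lemma TL_of_TLe {a b : PowerSeries ℝ} {c : ℝ} (h : TLe a b) (hb : TL b c) : TL a c := by
  refine ⟨h.1, fun ε hε => ?_⟩
  filter_upwards [hb.2 ε hε] with M hM
  exact (h.2.2 M).trans hM

lemma TL_sum {ι : Type} (s : Finset ι) (a : ι → PowerSeries ℝ) (c : ι → ℝ)
    (h : ∀ i ∈ s, TL (a i) (c i)) : TL (∑ i ∈ s, a i) (∑ i ∈ s, c i) := by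
  have hsum : ∀ n, PowerSeries.coeff n (∑ i ∈ s, a i) = ∑ i ∈ s, PowerSeries.coeff n (a i) :=
    fun n => map_sum _ _ _
  refine ⟨⟨fun n => ?_, ?_⟩, fun ε hε => ?_⟩
  · rw [hsum]
    exact Finset.sum_nonneg fun i hi => (h i hi).1.1 n
  · simp only [hsum]
    exact summable_sum fun i hi => (h i hi).1.2
  · have hε' : 0 < ε / (s.card + 1) := by positivity
    have hall : ∀ᶠ M : ℕ in atTop, ∀ i ∈ s,
        tl (a i) M ≤ (c i + ε / (s.card + 1)) * (M : ℝ) ^ (-(3 / 2) : ℝ) := by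
      rw [Filter.eventually_all_finset]
      intro i hi
      exact (h i hi).2 _ hε'
    filter_upwards [hall] with M hM
    have e1 : tl (∑ i ∈ s, a i) M = ∑ i ∈ s, tl (a i) M := by
      unfold tl
      simp only [hsum]
      exact Summable.tsum_finsetSum fun i hi => (summable_nat_add_iff M).2 (h i hi).1.2
    rw [e1]
    calc ∑ i ∈ s, tl (a i) M
        ≤ ∑ i ∈ s, (c i + ε / (s.card + 1)) * (M : ℝ) ^ (-(3 / 2) : ℝ) :=
          Finset.sum_le_sum fun i hi => hM i hi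
      _ = (∑ i ∈ s, c i + s.card * (ε / (s.card + 1))) * (M : ℝ) ^ (-(3 / 2) : ℝ) := by
          rw [← Finset.sum_mul, Finset.sum_add_distrib, Finset.sum_const, nsmul_eq_mul]
      _ ≤ (∑ i ∈ s, c i + ε) * (M : ℝ) ^ (-(3 / 2) : ℝ) := by
          refine mul_le_mul_of_nonneg_right ?_ (Real.rpow_nonneg (by positivity) _)
          have : (s.card : ℝ) * (ε / (s.card + 1)) ≤ ε := by
            rw [mul_div_assoc', div_le_iff₀ (by positivity)]
            nlinarith [(Nat.cast_nonneg s.card : (0 : ℝ) ≤ s.card)]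
          linarith

/-- the conclusion of S05 with the constant `K5` -/
def H5 (K5 : ℝ) : Prop :=
  ∀ (P : ℕ) (F : ℕ → ℝ) (a : PowerSeries ℝ) (c : ℝ), 1 ≤ P → 0 ≤ c →
    (∀ N, 0 ≤ F N) → (∀ N, F N ≤ (4 * N + 2 * P).factorial * 12 ^ N * PowerSeries.coeff N a) →
    (∀ n, 0 ≤ PowerSeries.coeff n a) → Summable (fun n => PowerSeries.coeff n a) →
    (∀ ε > 0, ∀ᶠ M : ℕ in atTop, tl a M ≤ (c + ε) * (M : ℝ) ^ (-(3 / 2) : ℝ)) →
    ∀ ε > 0, ∀ᶠ M : ℕ in atTop,
      1 / M * ∑ N ∈ Finset.Ico M (2 * M), F N / (Nat.card {x // x ∈ GQ N P} : ℝ) ≤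
        K5 * c / (8 ^ P * Real.sqrt P) + ε

lemma U_of_TL {K5 : ℝ} (h5 : H5 K5) (X : Fn) (hX : ∀ D m o, 0 ≤ X D m o)
    (a : ℕ → PowerSeries ℝ) (c : ℕ → ℝ)
    (hb : ∀ N P : ℕ, 1 ≤ P → ∑ᶠ (x) (_ : x ∈ GQ N P), X _ x.1 x.2 ≤
      (4 * N + 2 * P).factorial * 12 ^ N * PowerSeries.coeff N (a P))
    (ht : ∀ P : ℕ, 1 ≤ P → TL (a P) (c P)) (hc : ∀ P : ℕ, 1 ≤ P → 0 ≤ c P) : U K5 X c := by
  intro P hP ε hε
  have := h5 P (fun N => ∑ᶠ (x) (_ : x ∈ GQ N P), X _ x.1 x.2) (a P) (c P) hP (hc P hP)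
    (fun N => finsum_nonneg fun x => finsum_nonneg fun _ => hX _ _ _) (fun N => hb N P hP)
    (ht P hP).1.1 (ht P hP).1.2 (ht P hP).2 ε hε
  exact this

/-! ## Average over `P` -/

/-- eventual upper bound of the average over `P` -/
def V (g : ℕ → ℝ) (b : ℝ) : Prop :=
  ∀ᶠ Q : ℕ in atTop, 1 / (Q : ℝ) * ∑ P ∈ Finset.Ioc Q (2 * Q), g P / (8 ^ P * Real.sqrt P * P) ≤ b

lemma V_sum {ι : Type} (s : Finset ι) (a : ι → ℝ) (g : ι → ℕ → ℝ) (b : ι → ℝ)
    (ha : ∀ i ∈ s, 0 ≤ a i) (h : ∀ i ∈ s, V (g i) (b i)) :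
    V (fun P => ∑ i ∈ s, a i * g i P) (∑ i ∈ s, a i * b i) := by
  have hall : ∀ᶠ Q : ℕ in atTop, ∀ i ∈ s,
      1 / (Q : ℝ) * ∑ P ∈ Finset.Ioc Q (2 * Q), g i P / (8 ^ P * Real.sqrt P * P) ≤ b i := by
    rw [Filter.eventually_all_finset]
    intro i hi
    exact h i hi
  filter_upwards [hall] with Q hQ
  have e1 : 1 / (Q : ℝ) * ∑ P ∈ Finset.Ioc Q (2 * Q),
      (∑ i ∈ s, a i * g i P) / (8 ^ P * Real.sqrt P * P) =
      ∑ i ∈ s, a i * (1 / (Q : ℝ) * ∑ P ∈ Finset.Ioc Q (2 * Q),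
        g i P / (8 ^ P * Real.sqrt P * P)) := by
    simp only [Finset.sum_div]
    rw [Finset.sum_comm, Finset.mul_sum]
    refine Finset.sum_congr rfl fun i _ => ?_
    simp only [mul_div_assoc]
    rw [← Finset.mul_sum]
    ring
  rw [e1]
  exact Finset.sum_le_sum fun i hi => mul_le_mul_of_nonneg_left (hQ i hi) (ha i hi)

lemma V_add (g g' : ℕ → ℝ) (b b' : ℝ) (h : V g b) (h' : V g' b') :
    V (fun P => g P + g' P) (b + b') := by
  filter_upwards [h, h'] with Q h1 h2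
  simp only [add_div]
  rw [Finset.sum_add_distrib, mul_add]
  linarith

lemma V_mono {g : ℕ → ℝ} {b b' : ℝ} (h : V g b) (hb : b ≤ b') : V g b' := by
  filter_upwards [h] with Q h1
  exact h1.trans hb

lemma Aw_nonneg (l : ℤ) (hl : 0 ≤ l) : 0 ≤ Aw l := by
  unfold Aw
  have : (0 : ℝ) ≤ l := by exact_mod_cast hl
  positivity

lemma Kst_nonneg (P : ℕ) (k : ℤ) (hk : 0 ≤ k) : 0 ≤ Kst P k := by
  unfold Kst
  refine finsum_nonneg fun b => finsum_nonneg fun hb => ?_
  refine mul_nonneg (Finset.sum_nonneg fun i _ => by positivity) (Finset.prod_nonneg fun i _ => ?_)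
  exact Aw_nonneg _ (hk.trans (hb.2.2.1 i))

lemma rpow_bd (Q : ℕ) (hQ : 1 ≤ Q) :
    ((2 * Q : ℕ) : ℝ) ^ (3 / 2 : ℝ) ≤ 3 * (Q * Real.sqrt Q) := by
  have hq : (0 : ℝ) < Q := by exact_mod_cast hQ
  have h1 : ((2 * Q : ℕ) : ℝ) ^ (3 / 2 : ℝ) = (2 * Q : ℝ) * Real.sqrt (2 * Q) := by
    push_cast
    rw [show (3 / 2 : ℝ) = 1 + 1 / 2 by norm_num, Real.rpow_add (by positivity), Real.rpow_one,
      Real.sqrt_eq_rpow]
  have h2 : Real.sqrt (2 * Q) ≤ 3 / 2 * Real.sqrt Q := by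
    have h3 : Real.sqrt (2 * Q) ≤ Real.sqrt ((3 / 2) ^ 2 * Q) :=
      Real.sqrt_le_sqrt (by nlinarith)
    have h4 : Real.sqrt ((3 / 2) ^ 2 * Q) = 3 / 2 * Real.sqrt Q := by
      rw [Real.sqrt_mul (by norm_num), Real.sqrt_sq (by norm_num)]
    rw [h4] at h3
    exact h3
  rw [h1]
  nlinarith [Real.sqrt_nonneg (Q : ℝ)]

lemma V_Kst {K33 : ℝ} (hK : 0 < K33)
    (h33 : ∀ (h Q : ℕ), (h + 2) ^ 2 ≤ Q →
      ∑ P ∈ Finset.Icc 1 Q, Kst P (h : ℤ) / (8 ^ P * P) ≤ K33 * (h + 2) ^ 2 * (Q : ℝ) ^ (3 / 2 : ℝ))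
    (h : ℕ) : V (fun P => Kst P (h : ℤ)) (3 * K33 * ((h : ℝ) + 2) ^ 2) := by
  filter_upwards [Filter.eventually_ge_atTop ((h + 2) ^ 2)] with Q hQ
  have hQ1 : 1 ≤ Q := le_trans (Nat.one_le_pow _ _ (by omega)) hQ
  have hq : (0 : ℝ) < Q := by exact_mod_cast hQ1
  have hsq : 0 < Real.sqrt Q := Real.sqrt_pos.2 hq
  have hk : ∀ P : ℕ, 0 ≤ Kst P (h : ℤ) := fun P => Kst_nonneg P _ (by positivity)
  have h1 : ∑ P ∈ Finset.Ioc Q (2 * Q), Kst P (h : ℤ) / (8 ^ P * Real.sqrt P * P) ≤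
      1 / Real.sqrt Q * ∑ P ∈ Finset.Icc 1 (2 * Q), Kst P (h : ℤ) / (8 ^ P * P) := by
    calc ∑ P ∈ Finset.Ioc Q (2 * Q), Kst P (h : ℤ) / (8 ^ P * Real.sqrt P * P)
        ≤ ∑ P ∈ Finset.Ioc Q (2 * Q), 1 / Real.sqrt Q * (Kst P (h : ℤ) / (8 ^ P * P)) := by
          refine Finset.sum_le_sum fun P hP => ?_
          rw [Finset.mem_Ioc] at hP
          have hP0 : (0 : ℝ) < P := by exact_mod_cast (by omega : 0 < P)
          have h2 : Real.sqrt Q ≤ Real.sqrt P := Real.sqrt_le_sqrt (by exact_mod_cast hP.1.le)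
          have e : 1 / Real.sqrt Q * (Kst P (h : ℤ) / (8 ^ P * P)) =
              Kst P (h : ℤ) / (8 ^ P * Real.sqrt Q * P) := by
            field_simp
          rw [e]
          refine div_le_div_of_nonneg_left (hk P) (by positivity) ?_
          gcongr
      _ = 1 / Real.sqrt Q * ∑ P ∈ Finset.Ioc Q (2 * Q), Kst P (h : ℤ) / (8 ^ P * P) := by
          rw [Finset.mul_sum]
      _ ≤ 1 / Real.sqrt Q * ∑ P ∈ Finset.Icc 1 (2 * Q), Kst P (h : ℤ) / (8 ^ P * P) := by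
          refine mul_le_mul_of_nonneg_left ?_ (by positivity)
          refine Finset.sum_le_sum_of_subset_of_nonneg ?_ ?_
          · intro P hP
            rw [Finset.mem_Ioc] at hP
            rw [Finset.mem_Icc]
            omega
          · intro P _ _
            exact div_nonneg (hk P) (by positivity)
  have h2 := h33 h (2 * Q) (by omega)
  have h3 := rpow_bd Q hQ1
  have h4 : ∑ P ∈ Finset.Icc 1 (2 * Q), Kst P (h : ℤ) / (8 ^ P * P) ≤
      K33 * ((h : ℝ) + 2) ^ 2 * (3 * (Q * Real.sqrt Q)) :=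
    h2.trans (mul_le_mul_of_nonneg_left h3 (by positivity))
  calc 1 / (Q : ℝ) * ∑ P ∈ Finset.Ioc Q (2 * Q), Kst P (h : ℤ) / (8 ^ P * Real.sqrt P * P)
      ≤ 1 / (Q : ℝ) * (1 / Real.sqrt Q * (K33 * ((h : ℝ) + 2) ^ 2 * (3 * (Q * Real.sqrt Q)))) := by
        refine mul_le_mul_of_nonneg_left (h1.trans ?_) (by positivity)
        exact mul_le_mul_of_nonneg_left h4 (by positivity)
    _ = 3 * K33 * ((h : ℝ) + 2) ^ 2 := by
        field_simp

lemma sum_sq (T : ℕ) : ∑ t ∈ Finset.Icc 1 T, 1 / (t : ℝ) ^ 2 ≤ 2 := by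
  have h : ∀ T : ℕ, ∑ t ∈ Finset.Icc 1 (T + 1), 1 / (t : ℝ) ^ 2 ≤ 2 - 1 / ((T : ℝ) + 1) := by
    intro T
    induction T with
    | zero => norm_num
    | succ T ih =>
      rw [Finset.sum_Icc_succ_top (by omega)]
      have h1 : 1 / (((T + 1 + 1 : ℕ) : ℝ)) ^ 2 ≤ 1 / ((T : ℝ) + 1) - 1 / ((T : ℝ) + 1 + 1) := by
        push_cast
        have h2 : 1 / ((T : ℝ) + 1) - 1 / ((T : ℝ) + 1 + 1) =
            1 / (((T : ℝ) + 1) * ((T : ℝ) + 1 + 1)) := by
          field_simp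
          ring
        rw [h2]
        refine one_div_le_one_div_of_le (by positivity) ?_
        nlinarith [(Nat.cast_nonneg T : (0 : ℝ) ≤ T)]
      push_cast at h1 ih ⊢
      linarith
  rcases T with _ | T
  · norm_num
  · refine (h T).trans ?_
    have : 0 ≤ 1 / ((T : ℝ) + 1) := by positivity
    linarith

theorem st_S06 (h2 : ST_S02) (h3 : ST_S03) (h4 : ST_S04) (h5 : ST_S05) (h14 : ST_C14)
    (h17 : ST_C17) (h27 : ST_C27) (h33 : ST_C33) : ST_S06 := by
  obtain ⟨K5, hK5, h5⟩ := h5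
  obtain ⟨K33, hK33, h33⟩ := h33
  obtain ⟨K27, h27⟩ := h27 310
  set KA := max K27 0 with hKA
  have hKA0 : 0 ≤ KA := le_max_right _ _
  have h5' : H5 K5 := h5
  have hkk : ∀ (P k : ℕ), 0 ≤ Kst P (k : ℤ) := fun P k => Kst_nonneg P _ (by positivity)
  have hk1 : ∀ (P k : ℕ), 0 ≤ Kst P ((k : ℤ) + 1) := fun P k => Kst_nonneg P _ (by positivity)
  -- the three functionals
  have hU1 : ∀ h : ℕ, U K5 (Ftube h) (fun P => 4 * Kst P (h : ℤ)) := by
    intro h
    refine U_of_TL h5' (Ftube h) (fun D m o => by unfold Ftube; positivity)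
      (fun P => CS one pos P h) _ (fun N P hP => h2 N P h hP)
      (fun P hP => h14 P h hP (by positivity)) (fun P _ => ?_)
    have := hkk P h
    positivity
  have hU2 : ∀ h : ℕ, U K5 (Fdeg h)
      (fun P => ∑ k ∈ Finset.range (h + 1), 4 * Kst P ((k : ℤ) + 1)) := by
    intro h
    refine U_of_TL h5' (Fdeg h) (fun D m o => by
        unfold Fdeg
        exact finsum_nonneg fun v => finsum_nonneg fun _ => by positivity)
      (fun P => ∑ k ∈ Finset.range (h + 1), CS dg pos P k) _ (fun N P hP => ?_)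
      (fun P hP => TL_sum _ _ _ fun k _ => TL_of_TLe (h17 P k hP (by positivity))
        (h14 P (k + 1) hP (by positivity)))
      (fun P _ => Finset.sum_nonneg fun k _ => by
        have := hk1 P k
        positivity)
    rw [map_sum]
    exact h3 N P h hP
  have hU3 : ∀ t h : ℕ, 2 ≤ t → U K5 (Fbad t h)
      (fun P => ∑ k ∈ Finset.Icc (4 * t ^ 16) h,
        KA / (t : ℝ) ^ 310 * (Kst P (k : ℤ) + Kst P ((k : ℤ) + 1))) := by
    intro t h ht
    refine U_of_TL h5' (Fbad t h) (fun D m o => by unfold Fbad; positivity)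
      (fun P => ∑ k ∈ Finset.Icc (4 * t ^ 16) h, BS t P k) _ (fun N P hP => ?_)
      (fun P hP => TL_sum _ _ _ fun k hk => ?_)
      (fun P _ => Finset.sum_nonneg fun k _ => by
        have := hk1 P k
        have := hkk P k
        positivity)
    · rw [map_sum]
      exact h4 N P t h hP ht
    · rw [Finset.mem_Icc] at hk
      refine TL_mono (h27 t P k ht hP (by exact_mod_cast hk.1)) ?_
      have e1 := hk1 P k
      have e2 := hkk P k
      refine mul_le_mul_of_nonneg_right ?_ (by linarith)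
      exact div_le_div_of_nonneg_right (le_max_left _ _) (by positivity)
  have hV : ∀ h : ℕ, V (fun P => Kst P (h : ℤ)) (3 * K33 * ((h : ℝ) + 2) ^ 2) := V_Kst hK33 h33
  have hV1 : ∀ h : ℕ, V (fun P => Kst P ((h : ℤ) + 1)) (3 * K33 * ((h : ℝ) + 3) ^ 2) := by
    intro h
    have := hV (h + 1)
    push_cast at this
    have e : (h : ℝ) + 1 + 2 = h + 3 := by ring
    rw [e] at this
    exact this
  refine ⟨K5 * (24 * K33 + 6144 * K33 * KA + 24 * K33) + 1, by positivity, ?_⟩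
  intro T
  -- coefficients
  let a1 : ℕ → ℝ := fun t => 1 / (t : ℝ) ^ 2 / ((hh t : ℝ) + 2) ^ 2
  let a2 : ℕ → ℝ := fun t => 1 / (t : ℝ) ^ 2 * (t : ℝ) ^ 200
  let a3 : ℕ → ℝ := fun h => 1 / (h : ℝ) ^ 2 / ((h : ℝ) + 3) ^ 3
  have hYY : YY T = fun D m o => (∑ t ∈ Finset.Icc 1 T, a1 t * Ftube (hh t) D m o +
      ∑ t ∈ Finset.Icc 2 T, a2 t * Fbad t (hh t) D m o) +
      ∑ h ∈ Finset.Icc 1 T, a3 h * Fdeg h D m o := by
    funext D m o
    unfold YY
    congr 1
    · congr 1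
      · refine Finset.sum_congr rfl fun t _ => ?_
        simp only [a1]; ring
      · refine Finset.sum_congr rfl fun t _ => ?_
        simp only [a2]; ring
    · refine Finset.sum_congr rfl fun t _ => ?_
      simp only [a3]; ring
  let g : ℕ → ℝ := fun P => (∑ t ∈ Finset.Icc 1 T, a1 t * (4 * Kst P ((hh t : ℕ) : ℤ)) +
      ∑ t ∈ Finset.Icc 2 T, a2 t * (∑ k ∈ Finset.Icc (4 * t ^ 16) (hh t),
        KA / (t : ℝ) ^ 310 * (Kst P (k : ℤ) + Kst P ((k : ℤ) + 1)))) +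
      ∑ h ∈ Finset.Icc 1 T, a3 h * (∑ k ∈ Finset.range (h + 1), 4 * Kst P ((k : ℤ) + 1))
  have hU : U K5 (YY T) g := by
    rw [hYY]
    refine U_add K5 _ _ _ _ (U_add K5 _ _ _ _ ?_ ?_) ?_
    · exact U_sum K5 _ a1 _ _ (fun t _ => by simp only [a1]; positivity) (fun t _ => hU1 (hh t))
    · refine U_sum K5 _ a2 _ _ (fun t _ => by simp only [a2]; positivity) (fun t ht => ?_)
      rw [Finset.mem_Icc] at ht
      exact hU3 t (hh t) ht.1
    · exact U_sum K5 _ a3 _ _ (fun t _ => by simp only [a3]; positivity) (fun t _ => hU2 t)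
  have hVg : V g (24 * K33 + 6144 * K33 * KA + 24 * K33) := by
    have v1 : V (fun P => ∑ t ∈ Finset.Icc 1 T, a1 t * (4 * Kst P ((hh t : ℕ) : ℤ)))
        (24 * K33) := by
      have := V_sum (Finset.Icc 1 T) (fun t => a1 t * 4) (fun t P => Kst P ((hh t : ℕ) : ℤ)) _
        (fun t _ => by simp only [a1]; positivity) (fun t _ => hV (hh t))
      have e : (fun P => ∑ t ∈ Finset.Icc 1 T, a1 t * (4 * Kst P ((hh t : ℕ) : ℤ))) =
          fun P => ∑ t ∈ Finset.Icc 1 T, a1 t * 4 * Kst P ((hh t : ℕ) : ℤ) := by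
        funext P
        exact Finset.sum_congr rfl fun t _ => by ring
      rw [e]
      refine V_mono this ?_
      have e2 : ∑ t ∈ Finset.Icc 1 T, a1 t * 4 * (3 * K33 * ((hh t : ℝ) + 2) ^ 2) =
          12 * K33 * ∑ t ∈ Finset.Icc 1 T, 1 / (t : ℝ) ^ 2 := by
        rw [Finset.mul_sum]
        refine Finset.sum_congr rfl fun t _ => ?_
        simp only [a1]
        have : ((hh t : ℝ) + 2) ^ 2 ≠ 0 := by positivity
        field_simp
        ring
      rw [e2]
      have := sum_sq T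
      nlinarith
    have v3 : V (fun P => ∑ h ∈ Finset.Icc 1 T, a3 h *
        (∑ k ∈ Finset.range (h + 1), 4 * Kst P ((k : ℤ) + 1))) (24 * K33) := by
      have := V_sum (Finset.Icc 1 T) a3
        (fun h P => ∑ k ∈ Finset.range (h + 1), 4 * Kst P ((k : ℤ) + 1)) _
        (fun t _ => by simp only [a3]; positivity)
        (fun h _ => V_sum (Finset.range (h + 1)) (fun _ => 4) (fun k P => Kst P ((k : ℤ) + 1)) _
          (fun _ _ => by norm_num) (fun k _ => hV1 k))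
      refine V_mono this ?_
      have e2 : ∑ h ∈ Finset.Icc 1 T, a3 h * (∑ k ∈ Finset.range (h + 1),
          4 * (3 * K33 * ((k : ℝ) + 3) ^ 2)) ≤
          ∑ h ∈ Finset.Icc 1 T, 12 * K33 * (1 / (h : ℝ) ^ 2) := by
        refine Finset.sum_le_sum fun h _ => ?_
        have e3 : ∑ k ∈ Finset.range (h + 1), 4 * (3 * K33 * ((k : ℝ) + 3) ^ 2) ≤
            12 * K33 * ((h : ℝ) + 3) ^ 3 := by
          calc ∑ k ∈ Finset.range (h + 1), 4 * (3 * K33 * ((k : ℝ) + 3) ^ 2)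
              ≤ ∑ k ∈ Finset.range (h + 1), 12 * K33 * ((h : ℝ) + 3) ^ 2 := by
                refine Finset.sum_le_sum fun k hk => ?_
                rw [Finset.mem_range] at hk
                have hkh : (k : ℝ) ≤ h := by exact_mod_cast (by omega : k ≤ h)
                have : ((k : ℝ) + 3) ^ 2 ≤ ((h : ℝ) + 3) ^ 2 := by gcongr
                nlinarith
            _ = ((h : ℝ) + 1) * (12 * K33 * ((h : ℝ) + 3) ^ 2) := by
                rw [Finset.sum_const, Finset.card_range, nsmul_eq_mul]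
                push_cast
                ring
            _ ≤ ((h : ℝ) + 3) * (12 * K33 * ((h : ℝ) + 3) ^ 2) := by
                refine mul_le_mul_of_nonneg_right (by linarith) (by positivity)
            _ = 12 * K33 * ((h : ℝ) + 3) ^ 3 := by ring
        calc a3 h * (∑ k ∈ Finset.range (h + 1), 4 * (3 * K33 * ((k : ℝ) + 3) ^ 2))
            ≤ a3 h * (12 * K33 * ((h : ℝ) + 3) ^ 3) :=
              mul_le_mul_of_nonneg_left e3 (by simp only [a3]; positivity)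
          _ = 12 * K33 * (1 / (h : ℝ) ^ 2) := by
              simp only [a3]
              have : ((h : ℝ) + 3) ^ 3 ≠ 0 := by positivity
              field_simp
      refine e2.trans ?_
      rw [← Finset.mul_sum]
      have := sum_sq T
      nlinarith
    have v2 : V (fun P => ∑ t ∈ Finset.Icc 2 T, a2 t * (∑ k ∈ Finset.Icc (4 * t ^ 16) (hh t),
        KA / (t : ℝ) ^ 310 * (Kst P (k : ℤ) + Kst P ((k : ℤ) + 1)))) (6144 * K33 * KA) := by
      have := V_sum (Finset.Icc 2 T) a2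
        (fun t P => ∑ k ∈ Finset.Icc (4 * t ^ 16) (hh t),
          KA / (t : ℝ) ^ 310 * (Kst P (k : ℤ) + Kst P ((k : ℤ) + 1))) _
        (fun t _ => by simp only [a2]; positivity)
        (fun t _ => V_sum (Finset.Icc (4 * t ^ 16) (hh t)) (fun _ => KA / (t : ℝ) ^ 310)
          (fun k P => Kst P (k : ℤ) + Kst P ((k : ℤ) + 1)) _
          (fun _ _ => by positivity) (fun k _ => V_add _ _ _ _ (hV k) (hV1 k)))
      refine V_mono this ?_
      have e2 : ∑ t ∈ Finset.Icc 2 T, a2 t * (∑ k ∈ Finset.Icc (4 * t ^ 16) (hh t),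
          KA / (t : ℝ) ^ 310 * (3 * K33 * ((k : ℝ) + 2) ^ 2 + 3 * K33 * ((k : ℝ) + 3) ^ 2)) ≤
          ∑ t ∈ Finset.Icc 2 T, 3072 * K33 * KA * (1 / (t : ℝ) ^ 2) := by
        refine Finset.sum_le_sum fun t ht => ?_
        rw [Finset.mem_Icc] at ht
        have ht1 : (1 : ℝ) ≤ t := by exact_mod_cast (by omega : 1 ≤ t)
        have ht0 : (0 : ℝ) < t := by linarith
        have hhb : (hh t : ℝ) + 3 ≤ 8 * (t : ℝ) ^ 35 := by
          unfold hh
          push_cast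
          have q1 : (t : ℝ) ^ 16 ≤ (t : ℝ) ^ 35 := pow_le_pow_right₀ ht1 (by norm_num)
          have q2 : (1 : ℝ) ≤ (t : ℝ) ^ 35 := one_le_pow₀ ht1
          linarith
        have e3 : ∑ k ∈ Finset.Icc (4 * t ^ 16) (hh t),
            KA / (t : ℝ) ^ 310 * (3 * K33 * ((k : ℝ) + 2) ^ 2 + 3 * K33 * ((k : ℝ) + 3) ^ 2) ≤
            KA / (t : ℝ) ^ 310 * (3072 * K33 * (t : ℝ) ^ 105) := by
          rw [← Finset.mul_sum]
          refine mul_le_mul_of_nonneg_left ?_ (by positivity)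
          calc ∑ k ∈ Finset.Icc (4 * t ^ 16) (hh t),
              (3 * K33 * ((k : ℝ) + 2) ^ 2 + 3 * K33 * ((k : ℝ) + 3) ^ 2)
              ≤ ∑ k ∈ Finset.Icc (4 * t ^ 16) (hh t), 6 * K33 * ((hh t : ℝ) + 3) ^ 2 := by
                refine Finset.sum_le_sum fun k hk => ?_
                rw [Finset.mem_Icc] at hk
                have hkh : (k : ℝ) ≤ hh t := by exact_mod_cast hk.2
                have p1 : ((k : ℝ) + 3) ^ 2 ≤ ((hh t : ℝ) + 3) ^ 2 := by gcongr
                have p2 : ((k : ℝ) + 2) ^ 2 ≤ ((hh t : ℝ) + 3) ^ 2 := by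
                  gcongr
                  norm_num
                nlinarith
            _ = ((Finset.Icc (4 * t ^ 16) (hh t)).card : ℝ) * (6 * K33 * ((hh t : ℝ) + 3) ^ 2) := by
                rw [Finset.sum_const, nsmul_eq_mul]
            _ ≤ ((hh t : ℝ) + 3) * (6 * K33 * ((hh t : ℝ) + 3) ^ 2) := by
                refine mul_le_mul_of_nonneg_right ?_ (by positivity)
                rw [Nat.card_Icc]
                have : ((hh t + 1 - 4 * t ^ 16 : ℕ) : ℝ) ≤ ((hh t + 1 : ℕ) : ℝ) := by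
                  exact_mod_cast Nat.sub_le _ _
                push_cast at this ⊢
                linarith
            _ = 6 * K33 * ((hh t : ℝ) + 3) ^ 3 := by ring
            _ ≤ 6 * K33 * (8 * (t : ℝ) ^ 35) ^ 3 := by gcongr
            _ = 3072 * K33 * (t : ℝ) ^ 105 := by ring
        calc a2 t * (∑ k ∈ Finset.Icc (4 * t ^ 16) (hh t),
            KA / (t : ℝ) ^ 310 * (3 * K33 * ((k : ℝ) + 2) ^ 2 + 3 * K33 * ((k : ℝ) + 3) ^ 2))
            ≤ a2 t * (KA / (t : ℝ) ^ 310 * (3072 * K33 * (t : ℝ) ^ 105)) :=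
              mul_le_mul_of_nonneg_left e3 (by simp only [a2]; positivity)
          _ = 3072 * K33 * KA * (1 / (t : ℝ) ^ 2) * (1 / (t : ℝ) ^ 5) := by
              simp only [a2]
              have e4 : (t : ℝ) ^ 310 = (t : ℝ) ^ 200 * (t : ℝ) ^ 105 * (t : ℝ) ^ 5 := by
                rw [← pow_add, ← pow_add]
              rw [e4]
              field_simp
          _ ≤ 3072 * K33 * KA * (1 / (t : ℝ) ^ 2) * 1 := by
              refine mul_le_mul_of_nonneg_left ?_ (by positivity)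
              rw [div_le_one (by positivity)]
              exact one_le_pow₀ ht1
          _ = 3072 * K33 * KA * (1 / (t : ℝ) ^ 2) := by ring
      refine e2.trans ?_
      rw [← Finset.mul_sum]
      have e5 : ∑ t ∈ Finset.Icc 2 T, 1 / (t : ℝ) ^ 2 ≤ ∑ t ∈ Finset.Icc 1 T, 1 / (t : ℝ) ^ 2 :=
        Finset.sum_le_sum_of_subset_of_nonneg (Finset.Icc_subset_Icc (by norm_num) le_rfl)
          (fun _ _ _ => by positivity)
      have e6 := sum_sq T
      have : 0 ≤ 3072 * K33 * KA := by positivity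
      nlinarith
    exact V_add _ _ _ _ (V_add _ _ _ _ v1 v2) v3
  filter_upwards [hVg, Filter.eventually_ge_atTop 1] with Q hQ hQ1
  have hq : (0 : ℝ) < Q := by exact_mod_cast hQ1
  have hall : ∀ᶠ M : ℕ in atTop, ∀ P ∈ Finset.Ioc Q (2 * Q),
      1 / (M : ℝ) * ∑ N ∈ Finset.Ico M (2 * M), avG N P (YY T) ≤
      K5 * g P / (8 ^ P * Real.sqrt P) + 1 := by
    rw [Filter.eventually_all_finset]
    intro P hP
    rw [Finset.mem_Ioc] at hP
    exact hU P (by omega) 1 one_pos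
  filter_upwards [hall] with M hM
  have e1 : 1 / ((Q : ℝ) * M) * ∑ P ∈ Finset.Ioc Q (2 * Q), ∑ N ∈ Finset.Ico M (2 * M),
      avG N P (YY T) / P = 1 / (Q : ℝ) * ∑ P ∈ Finset.Ioc Q (2 * Q),
      (1 / (M : ℝ) * ∑ N ∈ Finset.Ico M (2 * M), avG N P (YY T)) / P := by
    rw [Finset.mul_sum, Finset.mul_sum]
    refine Finset.sum_congr rfl fun P _ => ?_
    rw [← Finset.sum_div]
    ring
  rw [e1]
  calc 1 / (Q : ℝ) * ∑ P ∈ Finset.Ioc Q (2 * Q),
      (1 / (M : ℝ) * ∑ N ∈ Finset.Ico M (2 * M), avG N P (YY T)) / P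
      ≤ 1 / (Q : ℝ) * ∑ P ∈ Finset.Ioc Q (2 * Q),
        (K5 * (g P / (8 ^ P * Real.sqrt P * P)) + 1 / Q) := by
        refine mul_le_mul_of_nonneg_left (Finset.sum_le_sum fun P hP => ?_) (by positivity)
        have hP' := Finset.mem_Ioc.1 hP
        have hP0 : (0 : ℝ) < P := by exact_mod_cast (by omega : 0 < P)
        have hPQ : (Q : ℝ) ≤ P := by exact_mod_cast hP'.1.le
        have hsq : 0 < Real.sqrt P := Real.sqrt_pos.2 hP0
        calc (1 / (M : ℝ) * ∑ N ∈ Finset.Ico M (2 * M), avG N P (YY T)) / P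
            ≤ (K5 * g P / (8 ^ P * Real.sqrt P) + 1) / P :=
              div_le_div_of_nonneg_right (hM P hP) hP0.le
          _ = K5 * (g P / (8 ^ P * Real.sqrt P * P)) + 1 / P := by
              field_simp
          _ ≤ K5 * (g P / (8 ^ P * Real.sqrt P * P)) + 1 / Q := by
              have := one_div_le_one_div_of_le hq hPQ
              linarith
    _ = K5 * (1 / (Q : ℝ) * ∑ P ∈ Finset.Ioc Q (2 * Q), g P / (8 ^ P * Real.sqrt P * P)) +
        1 / Q := by
        rw [Finset.sum_add_distrib, ← Finset.mul_sum, Finset.sum_const, Nat.card_Ioc, nsmul_eq_mul]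
        have e7 : ((2 * Q - Q : ℕ) : ℝ) = Q := by
          have : 2 * Q - Q = Q := by omega
          rw [this]
        rw [e7]
        field_simp
    _ ≤ K5 * (24 * K33 + 6144 * K33 * KA + 24 * K33) + 1 := by
        have e8 : 1 / (Q : ℝ) ≤ 1 := by
          rw [div_le_one hq]
          exact_mod_cast hQ1
        have e9 := mul_le_mul_of_nonneg_left hQ hK5.le
        linarith

end

end QR28
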